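import Pool.Agent.helper12.SP.Defs

set_option autoImplicit false

/-! # Module F: the catalytic recursion as a sequence of instructions -/

namespace Pool.Agent.helper12.SP

/-! ### Iteration -/

/-- the instructions number `a, …, a + n - 1` -/
def runF {X : Type} (F : ℕ → X → X) (a n : ℕ) (S : X) : X := Nat.rec S (fun i ih => F (a + i) ih) n

theorem runF_zero {X : Type} (F : ℕ → X → X) (a : ℕ) (S : X) : runF F a 0 S = S := rfl

theorem runF_succ {X : Type} (F : ℕ → X → X) (a n : ℕ) (S : X) :
    runF F a (n + 1) S = F (a + n) (runF F a n S) := rfl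

theorem runF_add {X : Type} (F : ℕ → X → X) (a m n : ℕ) (S : X) :
    runF F a (m + n) S = runF F (a + m) n (runF F a m S) := by
  induction n with
  | zero => rfl
  | succ n ih => rw [← Nat.add_assoc, runF_succ, runF_succ, ih, Nat.add_assoc]

theorem runF_congr {X : Type} {F G : ℕ → X → X} {a n : ℕ}
    (h : ∀ i < n, ∀ S, F (a + i) S = G (a + i) S) (S : X) : runF F a n S = runF G a n S := by
  induction n with
  | zero => rfl
  | succ n ih =>
    rw [runF_succ, runF_succ, ih (fun i hi => h i (Nat.lt_succ_of_lt hi)), h n (Nat.lt_succ_self n)]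

theorem runF_blocks {X : Type} (F : ℕ → X → X) (a n m : ℕ) (S : X) :
    runF F a (n * m) S = runF (fun d S => runF F (a + d * m) m S) 0 n S := by
  induction n with
  | zero => simp [runF_zero]
  | succ n ih => rw [Nat.succ_mul, runF_add, runF_succ, ih, Nat.zero_add]

theorem runF_eq {X : Type} (F : ℕ → X → X) (n : ℕ) (S : ℕ → X)
    (hS : ∀ τ < n, S (τ + 1) = F τ (S τ)) : S n = runF F 0 n (S 0) := by
  induction n with
  | zero => rfl
  | succ n ih =>
    rw [runF_succ, ← ih (fun τ hτ => hS τ (Nat.lt_succ_of_lt hτ)), Nat.zero_add,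
      hS n (Nat.lt_succ_self n)]

/-! ### The recursive program -/

section

variable {V : Type} [AddCommGroup V]

/-- the instruction number `τ` of the program for the node `c` at the level `l` with output bank
`o` -/
def stpF (A : ℕ) (v0 : ℕ → V) (loc : ℕ → V → V → V) : ℕ → ℕ → ℕ → ℕ → (ℕ → V) → (ℕ → V)
  | 0, c, o, _, S => Function.update S (o % 3) (S (o % 3) + v0 c)
  | l + 1, c, o, τ, S =>
    if τ / A ^ l % A % 3 = 2 then
      if τ % A ^ l = 0 then
        Function.update S (o % 3) (S (o % 3) +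
          loc (τ / A ^ l % A / 3 + 1) (S ((o + 1) % 3)) (S ((o + 2) % 3)))
      else S
    else stpF A v0 loc l (c + τ / A ^ l % A % 3) (o + 1 + τ / A ^ l % A % 3) τ S

/-- three steps of the outer loop -/
theorem triple (u w : V) (L : ℕ → V → V → V) (o : ℕ) (S : ℕ → V)
    (G : ℕ → (ℕ → V) → (ℕ → V))
    (G0 : ∀ m S, G (3 * m) S = Function.update S ((o + 1) % 3) (S ((o + 1) % 3) + u))
    (G1 : ∀ m S, G (3 * m + 1) S = Function.update S ((o + 2) % 3) (S ((o + 2) % 3) + w))
    (G2 : ∀ m S, G (3 * m + 2) S = Function.update S (o % 3) (S (o % 3) +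
      L (m + 1) (S ((o + 1) % 3)) (S ((o + 2) % 3)))) (n : ℕ) :
    runF G 0 (3 * n) S = fun k =>
      if k = o % 3 then S k + ∑ m ∈ Finset.range n,
        L (m + 1) (S ((o + 1) % 3) + (m + 1) • u) (S ((o + 2) % 3) + (m + 1) • w)
      else if k = (o + 1) % 3 then S k + n • u
      else if k = (o + 2) % 3 then S k + n • w
      else S k := by
  have d1 : (o + 1) % 3 ≠ o % 3 := by omega
  have d2 : (o + 2) % 3 ≠ o % 3 := by omega
  have d3 : (o + 2) % 3 ≠ (o + 1) % 3 := by omega
  induction n with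
  | zero =>
    funext k
    simp [runF_zero]
  | succ n ih =>
    have e : 3 * (n + 1) = 3 * n + 1 + 1 + 1 := by ring
    rw [e, runF_succ, runF_succ, runF_succ, ih]
    rw [show 0 + (3 * n + 1 + 1) = 3 * n + 2 by ring, show 0 + (3 * n + 1) = 3 * n + 1 by ring,
      show 0 + 3 * n = 3 * n by ring, G0, G1, G2]
    funext k
    by_cases hk : k = o % 3
    · subst hk
      simp only [Function.update_self, Function.update_of_ne (Ne.symm d1),
        Function.update_of_ne (Ne.symm d2), Function.update_of_ne d3,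
        Function.update_of_ne (Ne.symm d3), if_true, if_neg d1, if_neg d2, if_neg d3]
      rw [Finset.sum_range_succ, add_assoc, succ_nsmul, succ_nsmul, ← add_assoc (S ((o + 1) % 3)),
        ← add_assoc (S ((o + 2) % 3))]
    · rw [Function.update_of_ne hk, if_neg hk]
      by_cases hk2 : k = (o + 2) % 3
      · subst hk2
        rw [Function.update_self, Function.update_of_ne d3, if_neg d2, if_neg d3, if_pos rfl,
          if_neg d3, if_pos rfl, succ_nsmul, ← add_assoc]
      · rw [Function.update_of_ne hk2]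
        by_cases hk1 : k = (o + 1) % 3
        · subst hk1
          rw [Function.update_self, if_neg d1, if_pos rfl, if_pos rfl, succ_nsmul, ← add_assoc]
        · rw [Function.update_of_ne hk1, if_neg hk, if_neg hk1, if_neg hk2, if_neg hk1, if_neg hk2]

theorem div_block (A l k d i : ℕ) (hA : 1 ≤ A) (hd : d < A) (hi : i < A ^ l) :
    (k * A ^ (l + 1) + d * A ^ l + i) / A ^ l % A = d := by
  have hpos : 0 < A ^ l := pow_pos (by omega) l
  have e : k * A ^ (l + 1) + d * A ^ l + i = i + A ^ l * (k * A + d) := by ring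
  rw [e, Nat.add_mul_div_left _ _ hpos, Nat.div_eq_of_lt hi, Nat.zero_add, Nat.add_comm,
    Nat.add_mul_mod_self_right, Nat.mod_eq_of_lt hd]

theorem mod_block (A l k d i : ℕ) (hi : i < A ^ l) :
    (k * A ^ (l + 1) + d * A ^ l + i) % A ^ l = i := by
  have e : k * A ^ (l + 1) + d * A ^ l + i = i + A ^ l * (k * A + d) := by ring
  rw [e, Nat.add_mul_mod_self_left, Nat.mod_eq_of_lt hi]

/-- the program for a node adds the value of the node to the output bank -/
theorem run_stpF (p h : ℕ) (hp : 1 ≤ p) (hV : ∀ v : V, p • v = 0) (val : ℕ → ℕ → V)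
    (loc : ℕ → V → V → V)
    (H : ∀ l < h, ∀ c : ℕ, ∀ R1 R2 : V, ∑ m ∈ Finset.range p,
      loc (m + 1) (R1 + (m + 1) • val l c) (R2 + (m + 1) • val l (c + 1)) = val (l + 1) c)
    (l : ℕ) : l ≤ h → ∀ (c o k : ℕ) (S : ℕ → V),
    runF (stpF (3 * p) (val 0) loc l c o) (k * (3 * p) ^ l) ((3 * p) ^ l) S =
      Function.update S (o % 3) (S (o % 3) + val l c) := by
  induction l with
  | zero =>
    intro _ c o k S
    rw [pow_zero, show (1 : ℕ) = 0 + 1 from rfl, runF_succ, runF_zero, stpF]
  | succ l ih =>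
    intro hl c o k S
    have ih' := ih (by omega)
    have hA : 1 ≤ 3 * p := by omega
    have hpos : 0 < (3 * p) ^ l := pow_pos (by omega) l
    have e1 : (3 * p) ^ (l + 1) = 3 * p * (3 * p) ^ l := by ring
    conv_lhs => rw [show runF (stpF (3 * p) (val 0) loc (l + 1) c o) (k * (3 * p) ^ (l + 1))
      ((3 * p) ^ (l + 1)) S = runF (stpF (3 * p) (val 0) loc (l + 1) c o) (k * (3 * p) ^ (l + 1))
      (3 * p * (3 * p) ^ l) S from by rw [← e1]]
    rw [runF_blocks]
    -- the effect of one block
    let G : ℕ → (ℕ → V) → (ℕ → V) := fun d S =>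
      if d % 3 = 2 then Function.update S (o % 3) (S (o % 3) +
        loc (d / 3 + 1) (S ((o + 1) % 3)) (S ((o + 2) % 3)))
      else Function.update S ((o + 1 + d % 3) % 3) (S ((o + 1 + d % 3) % 3) + val l (c + d % 3))
    have hG : ∀ d < 3 * p, ∀ S, runF (stpF (3 * p) (val 0) loc (l + 1) c o)
        (k * (3 * p) ^ (l + 1) + d * (3 * p) ^ l) ((3 * p) ^ l) S = G d S := by
      intro d hd S
      by_cases hd2 : d % 3 = 2
      · simp only [G, if_pos hd2]
        obtain ⟨n, hn⟩ : ∃ n, (3 * p) ^ l = n + 1 := ⟨(3 * p) ^ l - 1, by omega⟩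
        have hstep : ∀ i < (3 * p) ^ l, ∀ S', stpF (3 * p) (val 0) loc (l + 1) c o
            (k * (3 * p) ^ (l + 1) + d * (3 * p) ^ l + i) S' = if i = 0 then
              Function.update S' (o % 3) (S' (o % 3) +
                loc (d / 3 + 1) (S' ((o + 1) % 3)) (S' ((o + 2) % 3))) else S' := by
          intro i hi S'
          rw [stpF, div_block _ _ _ _ _ hA hd hi, mod_block _ _ _ _ _ hi, if_pos hd2]
        have hind : ∀ n' < (3 * p) ^ l, runF (stpF (3 * p) (val 0) loc (l + 1) c o)
            (k * (3 * p) ^ (l + 1) + d * (3 * p) ^ l) (n' + 1) S =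
              Function.update S (o % 3) (S (o % 3) +
                loc (d / 3 + 1) (S ((o + 1) % 3)) (S ((o + 2) % 3))) := by
          intro n'
          induction n' with
          | zero =>
            intro hn'
            rw [runF_succ, runF_zero, hstep 0 hn', if_pos rfl]
          | succ n' ihn =>
            intro hn'
            rw [runF_succ, ihn (by omega), hstep (n' + 1) hn', if_neg (by omega)]
        conv_lhs => rw [show runF (stpF (3 * p) (val 0) loc (l + 1) c o)
          (k * (3 * p) ^ (l + 1) + d * (3 * p) ^ l) ((3 * p) ^ l) S =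
          runF (stpF (3 * p) (val 0) loc (l + 1) c o)
          (k * (3 * p) ^ (l + 1) + d * (3 * p) ^ l) (n + 1) S from by rw [← hn]]
        exact hind n (by omega)
      · simp only [G, if_neg hd2]
        rw [← ih' (c + d % 3) (o + 1 + d % 3) (k * (3 * p) + d) S,
          show (k * (3 * p) + d) * (3 * p) ^ l = k * (3 * p) ^ (l + 1) + d * (3 * p) ^ l by ring]
        apply runF_congr
        intro i hi S'
        rw [stpF, div_block _ _ _ _ _ hA hd hi, if_neg hd2]
    rw [runF_congr (G := G) (fun d hd S' => by rw [Nat.zero_add]; exact hG d hd S')]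
    rw [triple (val l c) (val l (c + 1)) loc o S G]
    · funext k'
      rw [H l (by omega) c (S ((o + 1) % 3)) (S ((o + 2) % 3)), hV, hV, add_zero]
      by_cases hk : k' = o % 3
      · subst hk
        rw [if_pos rfl, Function.update_self]
      · rw [if_neg hk, Function.update_of_ne hk]
        split_ifs <;> rfl
    · intro m S'
      have h3 : 3 * m % 3 = 0 := by omega
      simp only [G, h3]
      norm_num
    · intro m S'
      have h3 : (3 * m + 1) % 3 = 1 := by omega
      simp only [G, h3]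
      norm_num
    · intro m S'
      have h3 : (3 * m + 2) % 3 = 2 := by omega
      have h4 : (3 * m + 2) / 3 = m := by omega
      simp only [G, h3, h4]
      norm_num

/-- one instruction on the banks `S 0, S 1, S 2` -/
def ast {V : Type} [AddCommGroup V] (N p h : ℕ) (lea : ℕ → V) (loc : ℕ → V → V → V) (τ : ℕ)
    (S : ℕ → V) : ℕ → V :=
  if tt N (3 * p) h τ h = h then
    Function.update S ((h + cc N (3 * p) h τ h) % 3)
      (S ((h + cc N (3 * p) h τ h) % 3) + lea (cc N (3 * p) h τ h))
  else if τ % pw N (3 * p) (h - 1 - tt N (3 * p) h τ h) = 0 then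
    Function.update S ((tt N (3 * p) h τ h + cc N (3 * p) h τ (tt N (3 * p) h τ h)) % 3)
      (S ((tt N (3 * p) h τ h + cc N (3 * p) h τ (tt N (3 * p) h τ h)) % 3) +
        loc (τ / pw N (3 * p) (h - 1 - tt N (3 * p) h τ h) % (3 * p) / 3 + 1)
          (S (((tt N (3 * p) h τ h + cc N (3 * p) h τ (tt N (3 * p) h τ h)) % 3 + 1) % 3))
          (S (((tt N (3 * p) h τ h + cc N (3 * p) h τ (tt N (3 * p) h τ h)) % 3 + 2) % 3)))
  else S

theorem tt_succ (N A h τ i : ℕ) : tt N A h τ (i + 1) =
    if tt N A h τ i = i ∧ sl N A τ (h - 1 - i) ≠ 2 then tt N A h τ i + 1 else tt N A h τ i := rfl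

/-- `tt` is the number of calls before the first digit which is no call -/
theorem tt_spec (N A h τ i : ℕ) : tt N A h τ i ≤ i ∧
    (∀ j < tt N A h τ i, sl N A τ (h - 1 - j) ≠ 2) ∧
    (tt N A h τ i < i → sl N A τ (h - 1 - tt N A h τ i) = 2) := by
  induction i with
  | zero =>
    have h0 : tt N A h τ 0 = 0 := rfl
    rw [h0]
    exact ⟨le_rfl, fun j hj => absurd hj (Nat.not_lt_zero _), fun h => absurd h (lt_irrefl 0)⟩
  | succ i ih =>
    obtain ⟨h1, h2, h3⟩ := ih
    rw [tt_succ]
    split_ifs with hc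
    · refine ⟨by omega, fun j hj => ?_, fun hlt => by omega⟩
      rcases Nat.lt_or_ge j (tt N A h τ i) with hj' | hj'
      · exact h2 j hj'
      · have : j = i := by omega
        subst this
        exact hc.2
    · refine ⟨by omega, h2, fun _ => ?_⟩
      rcases Nat.lt_or_ge (tt N A h τ i) i with hlt | hge
      · exact h3 hlt
      · have heq : tt N A h τ i = i := by omega
        by_contra hne
        apply hc
        refine ⟨heq, ?_⟩
        rw [heq] at hne
        exact hne

theorem walk (N p h : ℕ) (hN : (3 * p) ^ h ≤ N) (hp : 1 ≤ p) (v0 : ℕ → V)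
    (loc : ℕ → V → V → V) (τ : ℕ) (S : ℕ → V) (i : ℕ) : i ≤ h →
    (∀ j < i, sl N (3 * p) τ (h - 1 - j) ≠ 2) →
    stpF (3 * p) v0 loc h 0 0 τ S =
      stpF (3 * p) v0 loc (h - i) (cc N (3 * p) h τ i) (i + cc N (3 * p) h τ i) τ S := by
  induction i with
  | zero =>
    intro _ _
    simp [cc]
  | succ i ih =>
    intro hi hsl
    rw [ih (by omega) (fun j hj => hsl j (by omega))]
    have e : h - i = (h - 1 - i) + 1 := by omega
    have hpw : pw N (3 * p) (h - 1 - i) = (3 * p) ^ (h - 1 - i) := by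
      unfold pw
      apply min_eq_left
      exact le_trans (Nat.pow_le_pow_right (by omega) (by omega)) hN
    have hs : τ / (3 * p) ^ (h - 1 - i) % (3 * p) % 3 = sl N (3 * p) τ (h - 1 - i) := by
      rw [sl, hpw]
    rw [e, stpF, hs, if_neg (hsl i (Nat.lt_succ_self i))]
    have hcc : cc N (3 * p) h τ (i + 1) = cc N (3 * p) h τ i + sl N (3 * p) τ (h - 1 - i) := by
      rw [cc, Finset.sum_range_succ]
      rfl
    rw [hcc]
    have e2 : h - (i + 1) = h - 1 - i := by omega
    rw [e2]
    congr 1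
    ring

theorem ast_eq (N p h : ℕ) (hN : (3 * p) ^ h ≤ N) (hp : 1 ≤ p) (v0 : ℕ → V)
    (loc : ℕ → V → V → V) (τ : ℕ) (S : ℕ → V) :
    ast N p h v0 loc τ S = stpF (3 * p) v0 loc h 0 0 τ S := by
  obtain ⟨h1, h2, h3⟩ := tt_spec N (3 * p) h τ h
  rw [walk N p h hN hp v0 loc τ S _ h1 h2]
  unfold ast
  split_ifs with hc hm
  · rw [hc, Nat.sub_self, stpF]
  · have hlt : tt N (3 * p) h τ h < h := lt_of_le_of_ne h1 hc
    have e : h - tt N (3 * p) h τ h = (h - 1 - tt N (3 * p) h τ h) + 1 := by omega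
    have hpw : pw N (3 * p) (h - 1 - tt N (3 * p) h τ h) =
        (3 * p) ^ (h - 1 - tt N (3 * p) h τ h) := by
      unfold pw
      apply min_eq_left
      exact le_trans (Nat.pow_le_pow_right (by omega) (by omega)) hN
    have hs : τ / (3 * p) ^ (h - 1 - tt N (3 * p) h τ h) % (3 * p) % 3 = 2 := by
      have := h3 hlt
      rwa [sl, hpw] at this
    rw [e, stpF, if_pos hs, if_pos (by rwa [hpw] at hm), hpw]
    rw [Nat.mod_add_mod, Nat.mod_add_mod]
  · have hlt : tt N (3 * p) h τ h < h := lt_of_le_of_ne h1 hc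
    have e : h - tt N (3 * p) h τ h = (h - 1 - tt N (3 * p) h τ h) + 1 := by omega
    have hpw : pw N (3 * p) (h - 1 - tt N (3 * p) h τ h) =
        (3 * p) ^ (h - 1 - tt N (3 * p) h τ h) := by
      unfold pw
      apply min_eq_left
      exact le_trans (Nat.pow_le_pow_right (by omega) (by omega)) hN
    have hs : τ / (3 * p) ^ (h - 1 - tt N (3 * p) h τ h) % (3 * p) % 3 = 2 := by
      have := h3 hlt
      rwa [sl, hpw] at this
    rw [e, stpF, if_pos hs, if_neg (by rwa [hpw] at hm)]

theorem cat {V : Type} [AddCommGroup V] (N p h : ℕ) (hp : 1 ≤ p) (hN : (3 * p) ^ h ≤ N)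
    (hV : ∀ v : V, p • v = 0) (val : ℕ → ℕ → V) (loc : ℕ → V → V → V)
    (H : ∀ l < h, ∀ c : ℕ, ∀ R1 R2 : V, ∑ m ∈ Finset.range p,
      loc (m + 1) (R1 + (m + 1) • val l c) (R2 + (m + 1) • val l (c + 1)) = val (l + 1) c)
    (S : ℕ → ℕ → V) (h0 : ∀ k, S 0 k = 0)
    (hS : ∀ τ < (3 * p) ^ h, S (τ + 1) = ast N p h (val 0) loc τ (S τ)) :
    S ((3 * p) ^ h) = fun k => if k = 0 then val h 0 else 0 := by
  have h1 := runF_eq (stpF (3 * p) (val 0) loc h 0 0) ((3 * p) ^ h) S (fun τ hτ => by
    rw [hS τ hτ, ast_eq N p h hN hp])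
  have h2 := run_stpF p h hp hV val loc H h le_rfl 0 0 0 (S 0)
  rw [Nat.zero_mul] at h2
  rw [h1, h2]
  funext k
  by_cases hk : k = 0
  · subst hk
    rw [if_pos rfl, Nat.zero_mod, Function.update_self, h0, zero_add]
  · rw [if_neg hk, Nat.zero_mod, Function.update_of_ne hk, h0]

end

end Pool.Agent.helper12.SP
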